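import Pool.Agent.helper12.PFS.Spec

/-!
# Almost perfect starters, row WKA: the words of the path
-/

set_option autoImplicit false

namespace Pool.Agent.PFS

section

variable {X F : Type} [Field F]

theorem WKA_count [DecidableEq X] (g : ℕ → X) (e : X) (n : ℕ) :
    ((List.range n).map g).count e = ((Finset.range n).filter (fun j => g j = e)).card := by
  induction n with
  | zero => simp
  | succ n ih =>
    rw [List.range_succ, List.map_append, List.count_append, ih, Finset.range_add_one,
      Finset.filter_insert]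
    by_cases h : g n = e
    · rw [if_pos h, Finset.card_insert_of_notMem (by simp)]
      simp [h]
    · rw [if_neg h]
      simp [h]

theorem WKA_rep {o : X} {τ : X → X} {r : X → Bool} (hτ : Inv o τ) (hr : Rp o τ r) {e : X}
    (he0 : e ≠ o) (he : r e = true) (y : X) : rep τ r y = e ↔ y = e ∨ y = τ e := by
  constructor
  · intro h
    rw [rep] at h
    split_ifs at h with h1
    · exact Or.inl h
    · right
      rw [← h, hτ.inv]
  · rintro (rfl | rfl)
    · rw [rep, if_pos he]
    · have h1 : r (τ e) = false := by rw [hr e he0, he]; rfl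
      rw [rep, h1]
      simp [hτ.inv]

theorem WKA_rep_r {o : X} {τ : X → X} {r : X → Bool} (hτ : Inv o τ) (hr : Rp o τ r) {x : X}
    (hx : x ≠ o) : rep τ r x ≠ o ∧ r (rep τ r x) = true := by
  rw [rep]
  cases h : r x with
  | true =>
    simp only [if_true]
    exact ⟨hx, h⟩
  | false =>
    simp only [Bool.false_eq_true, if_false]
    constructor
    · intro h1
      apply hx
      have h2 : τ o = o := (hτ.fix o).2 rfl
      rw [← hτ.inv x, h1, h2]
    · rw [hr x hx, h]
      rfl

theorem WKA_other {o : X} {τ : X → X} {r : X → Bool} (hτ : Inv o τ) (hr : Rp o τ r) {x y : X}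
    (hx : x ≠ o) (h : rep τ r x = rep τ r y) (hd : r x ≠ r y) : y = τ x := by
  obtain ⟨h1, h2⟩ := WKA_rep_r hτ hr hx
  have hxy : x ≠ y := fun h3 => hd (by rw [h3])
  rcases (WKA_rep hτ hr h1 h2 x).1 rfl with h3 | h3 <;>
    rcases (WKA_rep hτ hr h1 h2 y).1 h.symm with h4 | h4
  · exact absurd (h3.trans h4.symm) hxy
  · rw [h4, ← h3]
  · rw [h4, h3, hτ.inv, ← h3]
  · exact absurd (h3.trans h4.symm) hxy

theorem WKA_even (o : X) (τ : X → X) (T : X ≃ X) {j : ℕ} (h : j % 2 = 0) :
    zz o τ T (j + 1) = T (τ (T.symm (zz o τ T j))) := by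
  rw [zz, if_pos h]

theorem WKA_odd (o : X) (τ : X → X) (T : X ≃ X) {j : ℕ} (h : j % 2 = 1) :
    zz o τ T (j + 1) = τ (zz o τ T j) := by
  rw [zz, if_neg (by omega)]

end

/-- Row WKA. -/
theorem WKA : WKA_stmt := by
  intro X F _ _ _ o τ r T α h hτ hr hC hh hα
  obtain ⟨z, hz⟩ : ∃ z : ℕ → X, z = zz o τ T := ⟨_, rfl⟩
  have hz0 : z 0 = o := by rw [hz]; rfl
  have hze : ∀ j, j % 2 = 0 → z (j + 1) = T (τ (T.symm (z j))) := fun j hj => by
    rw [hz]; exact WKA_even o τ T hj
  have hzo : ∀ j, j % 2 = 1 → z (j + 1) = τ (z j) := fun j hj => by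
    rw [hz]; exact WKA_odd o τ T hj
  have hlast : z (2 * h) = T o := by rw [hz]; exact hC.last
  have hinj : ∀ i j, i ≤ 2 * h → j ≤ 2 * h → z i = z j → i = j := by rw [hz]; exact hC.inj
  have hsurj : ∀ x, ∃ i, i ≤ 2 * h ∧ z i = x := by rw [hz]; exact hC.surj
  -- the points of the steps
  obtain ⟨y, hy⟩ : ∃ y : ℕ → X, ∀ j, y j = if j % 2 = 0 then T.symm (z j) else z j :=
    ⟨_, fun _ => rfl⟩
  have hstp : ∀ j, stp o τ r T (α : F) j =
      ⟨rep τ r (y j), r (y j), if j % 2 = 0 then (α : F) else 1⟩ := by
    intro j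
    rw [stp, hy, hz]
    split_ifs
    · rfl
    · rfl
  have hyo : ∀ j, j < 2 * h → y j ≠ o := by
    intro j hj h1
    rw [hy] at h1
    split_ifs at h1 with h2
    · have h3 : z j = z (2 * h) := by
        rw [hlast, ← h1, Equiv.apply_symm_apply]
      have := hinj j (2 * h) hj.le le_rfl h3
      omega
    · have h3 : z j = z 0 := by rw [hz0, h1]
      have := hinj j 0 hj.le (Nat.zero_le _) h3
      omega
  refine ⟨?_, ?_, ?_, ?_⟩
  · intro h1
    have h2 := congrArg List.length h1
    rw [List.length_map, List.length_range, List.length_nil] at h2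
    omega
  · intro s hs
    obtain ⟨j, -, rfl⟩ := List.mem_map.1 hs
    rw [hstp]
    simp only
    split_ifs
    · exact α.ne_zero
    · exact one_ne_zero
  · intro s hs
    obtain ⟨j, hj, rfl⟩ := List.mem_map.1 hs
    have hj' := List.mem_range.1 hj
    rw [hstp j]
    simp only
    obtain ⟨e, he⟩ : ∃ e, e = rep τ r (y j) := ⟨_, rfl⟩
    rw [← he]
    obtain ⟨he0, her⟩ := WKA_rep_r hτ hr (hyo j hj')
    rw [← he] at he0 her
    have h1 : (((List.range (2 * h)).map (stp o τ r T (α : F))).map Step.e) =
        (List.range (2 * h)).map (fun j => rep τ r (y j)) := by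
      rw [List.map_map]
      refine List.map_congr_left fun j _ => ?_
      rw [Function.comp_apply, hstp]
    rw [h1, WKA_count]
    -- the odd place
    have hodd : ∃ j1, j1 < 2 * h ∧ j1 % 2 = 1 ∧ ∀ i, i < 2 * h → i % 2 = 1 →
        (rep τ r (y i) = e ↔ i = j1) := by
      obtain ⟨k, hk, hke⟩ := hsurj e
      have hk0 : k ≠ 0 := by
        rintro rfl
        exact he0 (by rw [← hke, hz0])
      rcases Nat.mod_two_eq_zero_or_one k with h2 | h2
      · obtain ⟨k', rfl⟩ : ∃ k', k = k' + 1 := ⟨k - 1, by omega⟩
        have h3 : τ e = z k' := by rw [← hke, hzo k' (by omega), hτ.inv]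
        refine ⟨k', by omega, by omega, fun i hi hi2 => ?_⟩
        rw [WKA_rep hτ hr he0 her, hy, if_neg (by omega), h3, ← hke]
        constructor
        · rintro (h4 | h4)
          · have := hinj i (k' + 1) hi.le hk h4
            omega
          · exact hinj i k' hi.le (by omega) h4
        · intro h4
          exact Or.inr (by rw [h4])
      · have hk1 : k < 2 * h := by omega
        have h3 : τ e = z (k + 1) := by rw [hzo k h2, hke]
        refine ⟨k, hk1, h2, fun i hi hi2 => ?_⟩
        rw [WKA_rep hτ hr he0 her, hy, if_neg (by omega), h3, ← hke]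
        constructor
        · rintro (h4 | h4)
          · exact hinj i k hi.le hk h4
          · have := hinj i (k + 1) hi.le (by omega) h4
            omega
        · intro h4
          exact Or.inl (by rw [h4])
    have heven : ∃ j1, j1 < 2 * h ∧ j1 % 2 = 0 ∧ ∀ i, i < 2 * h → i % 2 = 0 →
        (rep τ r (y i) = e ↔ i = j1) := by
      obtain ⟨k, hk, hke⟩ := hsurj (T e)
      have hk0 : k ≠ 2 * h := by
        rintro rfl
        rw [hlast] at hke
        exact he0 (T.injective hke).symm
      have hT : ∀ i x, T.symm (z i) = x ↔ z i = T x := fun i x => Equiv.symm_apply_eq T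
      rcases Nat.mod_two_eq_zero_or_one k with h2 | h2
      · have h3 : T (τ e) = z (k + 1) := by
          rw [hze k h2, hke, Equiv.symm_apply_apply]
        refine ⟨k, by omega, h2, fun i hi hi2 => ?_⟩
        rw [WKA_rep hτ hr he0 her, hy, if_pos hi2, hT, hT, h3, ← hke]
        constructor
        · rintro (h4 | h4)
          · exact hinj i k hi.le hk h4
          · have := hinj i (k + 1) hi.le (by omega) h4
            omega
        · intro h4
          exact Or.inl (by rw [h4])
      · obtain ⟨k', rfl⟩ : ∃ k', k = k' + 1 := ⟨k - 1, by omega⟩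
        have h3 : T (τ e) = z k' := by
          have h4 : e = τ (T.symm (z k')) := by
            apply T.injective
            rw [← hke, hze k' (by omega)]
          rw [h4, hτ.inv, Equiv.apply_symm_apply]
        refine ⟨k', by omega, by omega, fun i hi hi2 => ?_⟩
        rw [WKA_rep hτ hr he0 her, hy, if_pos hi2, hT, hT, h3, ← hke]
        constructor
        · rintro (h4 | h4)
          · have := hinj i (k' + 1) hi.le hk h4
            omega
          · exact hinj i k' hi.le (by omega) h4
        · intro h4
          exact Or.inr (by rw [h4])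
    obtain ⟨j1, a1, a2, a3⟩ := hodd
    obtain ⟨j2, b1, b2, b3⟩ := heven
    have h2 : (Finset.range (2 * h)).filter (fun j => rep τ r (y j) = e) = {j1, j2} := by
      ext i
      rw [Finset.mem_filter, Finset.mem_range, Finset.mem_insert, Finset.mem_singleton]
      constructor
      · rintro ⟨h3, h4⟩
        rcases Nat.mod_two_eq_zero_or_one i with h5 | h5
        · exact Or.inr ((b3 i h3 h5).1 h4)
        · exact Or.inl ((a3 i h3 h5).1 h4)
      · rintro (rfl | rfl)
        · exact ⟨a1, (a3 i a1 a2).2 rfl⟩
        · exact ⟨b1, (b3 i b1 b2).2 rfl⟩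
    rw [h2, Finset.card_pair (by rintro rfl; omega)]
  · intro A B s t hW hse hsd hsw
    have h1 : ((List.range (2 * h)).map (stp o τ r T (α : F)))[A.length]? = some s := by
      rw [hW]; simp
    have h2 : ((List.range (2 * h)).map (stp o τ r T (α : F)))[A.length + 1]? = some t := by
      rw [hW]; simp
    obtain ⟨j, hj⟩ : ∃ j, j = A.length := ⟨_, rfl⟩
    rw [← hj] at h1 h2
    have hj1 : j + 1 < 2 * h := by
      by_contra h3
      rw [List.getElem?_eq_none (by rw [List.length_map, List.length_range]; omega)] at h2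
      simp at h2
    rw [List.getElem?_map, List.getElem?_range (by omega), Option.map_some, Option.some_inj] at h1
    rw [List.getElem?_map, List.getElem?_range hj1, Option.map_some, Option.some_inj] at h2
    rw [hstp] at h1 h2
    rw [← h1, ← h2] at hse hsd hsw
    simp only at hse hsd hsw
    have hyj := WKA_other hτ hr (hyo j (by omega)) hse hsd
    rcases Nat.mod_two_eq_zero_or_one j with h3 | h3
    · rw [if_pos h3, if_neg (by omega)] at hsw
      have hα1 : α = 1 := Units.ext hsw
      have h4 : y (j + 1) = T (τ (y j)) := by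
        rw [hy, hy, if_neg (by omega), if_pos h3, hze j h3]
      rw [← hyj] at h4
      exact hα hα1 _ h4.symm
    · rw [if_neg (by omega), if_pos (by omega)] at hsw
      have hα1 : α = 1 := Units.ext hsw.symm
      have h4 : y (j + 1) = T.symm (τ (y j)) := by
        rw [hy, hy, if_pos (by omega), if_neg (by omega), hzo j h3]
      rw [← hyj] at h4
      exact hα hα1 (y (j + 1)) (by
        conv_lhs => rw [h4]
        rw [Equiv.apply_symm_apply])

end Pool.Agent.PFS
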